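import Pool.Agent.Run7.h105.EO.I

/-!
# MP_0f290c_co, piece GEN
-/

set_option autoImplicit false

namespace Pool.Agent.Run7.h733.EO

open Cardinal
open Pool.Agent.Run7.h105.EO

theorem t_GEN : S_TRANS → S_GEN := by
  classical
  intro hT κ hκ G _ n hn1 hn3 hcen hcom V X Φ S hSX hSo hSc
  have hmul : ∀ (a b : G) (y : V), Φ (a * b) y = Φ a (Φ b y) := fun a b y => by
    rw [map_mul]; rfl
  have hone : ∀ y : V, Φ 1 y = y := fun y => by rw [map_one]; rfl
  have hinv : ∀ (a : G) (y : V), Φ a⁻¹ (Φ a y) = y := fun a y => by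
    rw [← hmul, inv_mul_cancel, hone]
  -- a moved vertex
  obtain ⟨x, hx⟩ : ∃ x, Φ n x ≠ x := by
    by_contra h
    push Not at h
    apply hn1
    apply Φ.injective
    rw [map_one]
    ext y
    exact h y
  set R : V → V → Prop := fun a b => X.Adj a b ∧ Φ n b ≠ b with hR
  have hend : ∀ y, Relation.ReflTransGen R x y → Φ n y ≠ y := by
    intro y hy
    induction hy with
    | refl => exact hx
    | tail _ h _ => exact h.2
  -- representatives of the darts
  have hD : ∀ i : S × Bool, ∃ p : V × V, Relation.ReflTransGen R x p.1 ∧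
      ∀ u v, Relation.ReflTransGen R x u → Relation.ReflTransGen R x v →
        (∃ g : G, Φ g (if i.2 then (Quot.out (i.1 : Sym2 V)).1 else (Quot.out (i.1 : Sym2 V)).2) = u
          ∧ Φ g (if i.2 then (Quot.out (i.1 : Sym2 V)).2 else (Quot.out (i.1 : Sym2 V)).1) = v) →
        ∃ g : G, Φ g p.1 = u ∧ Φ g p.2 = v := by
    intro i
    by_cases h : ∃ p : V × V, Relation.ReflTransGen R x p.1 ∧ ∃ g : G,
      Φ g (if i.2 then (Quot.out (i.1 : Sym2 V)).1 else (Quot.out (i.1 : Sym2 V)).2) = p.1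
          ∧ Φ g (if i.2 then (Quot.out (i.1 : Sym2 V)).2 else (Quot.out (i.1 : Sym2 V)).1) = p.2
    · obtain ⟨p, hp, g0, h1, h2⟩ := h
      refine ⟨p, hp, ?_⟩
      rintro u v _ _ ⟨g, hu, hv⟩
      refine ⟨g * g0⁻¹, ?_, ?_⟩
      · rw [hmul, ← h1, hinv, hu]
      · rw [hmul, ← h2, hinv, hv]
    · refine ⟨(x, x), Relation.ReflTransGen.refl, ?_⟩
      rintro u v hu hv ⟨g, h1, h2⟩
      exact absurd ⟨(u, v), hu, g, h1, h2⟩ h
  choose p hp1 hp2 using hD
  let J : Type := Option (S × Bool)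
  let y : J → V := fun i => i.elim x (fun i => (p i).1)
  let z : J → V := fun i => i.elim x (fun i => (p i).2)
  have hy : ∀ j, Relation.ReflTransGen R x (y j) := by
    intro j
    rcases j with _ | i
    · exact Relation.ReflTransGen.refl
    · exact hp1 i
  have hdart : ∀ u v, Relation.ReflTransGen R x u → Relation.ReflTransGen R x v → X.Adj u v →
      ∃ (i : J) (g : G), Φ g (y i) = u ∧ Φ g (z i) = v := by
    intro u v hu hv huv
    obtain ⟨s, hs, φ, hφ⟩ := hSo s(u, v) huv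
    obtain ⟨f, rfl⟩ := Φ.surjective φ
    have hout : s = s((Quot.out s).1, (Quot.out s).2) := by
      have := Quot.out_eq s
      exact this.symm
    rw [hout, Sym2.map_mk, Sym2.eq_iff] at hφ
    rcases hφ with ⟨h1, h2⟩ | ⟨h1, h2⟩
    · obtain ⟨g, hg1, hg2⟩ := hp2 (⟨s, hs⟩, true) u v hu hv ⟨f, by simpa using h1, by simpa using h2⟩
      exact ⟨some (⟨s, hs⟩, true), g, hg1, hg2⟩
    · obtain ⟨g, hg1, hg2⟩ := hp2 (⟨s, hs⟩, false) u v hu hv
        ⟨f, by simpa using h2, by simpa using h1⟩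
      exact ⟨some (⟨s, hs⟩, false), g, hg1, hg2⟩
  -- connecting elements
  have hc : ∀ q : J × J, ∃ c : G, (∃ g : G, Φ g (y q.2) = z q.1) → Φ c (y q.2) = z q.1 := by
    intro q
    by_cases h : ∃ g : G, Φ g (y q.2) = z q.1
    · obtain ⟨g, hg⟩ := h
      exact ⟨g, fun _ => hg⟩
    · exact ⟨1, fun h' => absurd h' h⟩
  choose c hc using hc
  let H : J → Subgroup G := fun j =>
    { carrier := {g | Φ g (y j) = y j}
      mul_mem' := by
        intro a b ha hb
        change Φ (a * b) (y j) = y j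
        rw [hmul, hb, ha]
      one_mem' := hone _
      inv_mem' := by
        intro a ha
        change Φ a⁻¹ (y j) = y j
        have ha' : Φ a (y j) = y j := ha
        conv_lhs => rw [← ha']
        rw [hinv] }
  have hHmem : ∀ j g, g ∈ H j ↔ Φ g (y j) = y j := fun j g => Iff.rfl
  -- cardinals
  have hJ : #J ≤ κ := by
    have h1 : #J = #(S × Bool) + 1 := Cardinal.mk_option
    rw [h1]
    have h2 : #(S × Bool) ≤ κ := by
      rw [Cardinal.mk_prod, Cardinal.lift_id, Cardinal.lift_id]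
      refine le_trans (mul_le_mul' hSc (le_trans (le_of_lt (Cardinal.lt_aleph0_of_finite Bool)) hκ)) ?_
      rw [Cardinal.mul_eq_self hκ]
    exact Cardinal.add_le_of_le hκ h2 (le_trans (le_of_lt Cardinal.one_lt_aleph0) hκ)
  refine ⟨J, H, Set.range c, hJ, ?_, ?_, ?_⟩
  · refine le_trans Cardinal.mk_range_le ?_
    rw [Cardinal.mk_prod, Cardinal.lift_id]
    refine le_trans (mul_le_mul' hJ hJ) ?_
    rw [Cardinal.mul_eq_self hκ]
  · intro j hj
    exact hend _ (hy j) hj
  · set L := Subgroup.closure (Set.range c ∪ {n} ∪ ⋃ j, (H j : Set G)) with hL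
    have hcL : ∀ q, c q ∈ L := fun q => Subgroup.subset_closure (Or.inl (Or.inl ⟨q, rfl⟩))
    have hnL : n ∈ L := Subgroup.subset_closure (Or.inl (Or.inr rfl))
    have hHL : ∀ j, ∀ g ∈ H j, g ∈ L := fun j g hg =>
      Subgroup.subset_closure (Or.inr (Set.mem_iUnion.2 ⟨j, hg⟩))
    have hstep : ∀ (i : J) (g0 : G), g0 ∈ L → ∀ (j : J) (g : G), Φ g (y j) = Φ g0 (z i) → g ∈ L := by
      intro i g0 hg0 j g hg
      have h1 : Φ (g0⁻¹ * g) (y j) = z i := by rw [hmul, hg, hinv]
      have h2 : Φ (c (i, j)) (y j) = z i := hc (i, j) ⟨_, h1⟩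
      have h3 : (c (i, j))⁻¹ * (g0⁻¹ * g) ∈ H j := by
        rw [hHmem, hmul, h1, ← h2, hinv]
      have h4 := L.mul_mem hg0 (L.mul_mem (hcL (i, j)) (hHL _ _ h3))
      simpa using h4
    have hP : ∀ u, Relation.ReflTransGen R x u → ∀ (j : J) (g : G), Φ g (y j) = u → g ∈ L := by
      intro u hu
      induction hu with
      | refl =>
        intro j g hg
        exact hstep none 1 L.one_mem j g (by rw [hone]; exact hg)
      | tail hb hs ih =>
        intro j g hg
        obtain ⟨i, g0, h1, h2⟩ := hdart _ _ hb (hb.tail hs) hs.1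
        exact hstep i g0 (ih i g0 h1) j g (by rw [h2]; exact hg)
    rw [eq_top_iff]
    intro g _
    obtain ⟨k, hk⟩ := hT G n hn1 hn3 hcen hcom V X Φ x hx g
    have h1 : n ^ k * g ∈ L := hP _ hk none (n ^ k * g) rfl
    have h2 := L.mul_mem (L.inv_mem (L.pow_mem hnL k)) h1
    simpa using h2

end Pool.Agent.Run7.h733.EO
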