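import Pool.Agent.Run7.h105.EO.I

/-!
# MP_0f290c_co, piece TRANS
-/

set_option autoImplicit false

namespace Pool.Agent.Run7.h733.EO

open Pool.Agent.Run7.h105.EO

section

variable {V : Type} {X : SimpleGraph V}

/-- an automorphism which is `a` on `W` and the identity elsewhere -/
theorem cutAut (a : SimpleGraph.Iso X X) (W : Set V) (hW : ∀ y, a y ∈ W ↔ y ∈ W)
    (hE : ∀ y z, y ∈ W → z ∉ W → X.Adj y z → a z = z) :
    ∃ b : SimpleGraph.Iso X X, (∀ y ∈ W, b y = a y) ∧ ∀ y, y ∉ W → b y = y := by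
  classical
  have hW' : ∀ y, a.symm y ∈ W ↔ y ∈ W := fun y => by
    rw [← hW (a.symm y)]
    simp
  have hadj : ∀ y z, X.Adj (a y) (a z) ↔ X.Adj y z := fun y z => a.map_adj_iff
  let e : V ≃ V :=
    { toFun := fun y => if y ∈ W then a y else y
      invFun := fun y => if y ∈ W then a.symm y else y
      left_inv := by
        intro y
        by_cases h : y ∈ W
        · simp [h, (hW y).2 h]
        · simp [h]
      right_inv := by
        intro y
        by_cases h : y ∈ W
        · simp [h, (hW' y).2 h]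
        · simp [h] }
  have he : ∀ y, e y = if y ∈ W then a y else y := fun y => rfl
  have key : ∀ y z, y ∈ W → z ∉ W → (X.Adj (a y) z ↔ X.Adj y z) := by
    intro y z hy hz
    constructor
    · intro h
      have h1 := hE (a y) z ((hW y).2 hy) hz h
      rw [← hadj, h1]
      exact h
    · intro h
      have h1 := hE y z hy hz h
      have h2 := (hadj y z).2 h
      rwa [h1] at h2
  refine ⟨⟨e, ?_⟩, ?_, ?_⟩
  · intro y z
    rw [he, he]
    by_cases hy : y ∈ W <;> by_cases hz : z ∈ W
    · simp only [hy, hz, if_true]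
      exact hadj y z
    · simp only [hy, hz, if_true, if_false]
      exact key y z hy hz
    · simp only [hy, hz, if_true, if_false]
      rw [X.adj_comm y (a z), X.adj_comm y z]
      exact key z y hz hy
    · simp only [hy, hz, if_false]
  · intro y hy
    change e y = _
    rw [he, if_pos hy]
  · intro y hy
    change e y = _
    rw [he, if_neg hy]

end

theorem t_TRANS : S_TRANS := by
  classical
  intro G _ n hn1 hn3 hcen hcom V X Φ x hx g
  set R : V → V → Prop := fun a b => X.Adj a b ∧ Φ n b ≠ b with hR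
  have hmul : ∀ (a b : G) (y : V), Φ (a * b) y = Φ a (Φ b y) := fun a b y => by
    rw [map_mul]; rfl
  have hone : ∀ y : V, Φ 1 y = y := fun y => by rw [map_one]; rfl
  have hinv : ∀ (a : G) (y : V), Φ a⁻¹ (Φ a y) = y := fun a y => by
    rw [← hmul, inv_mul_cancel, hone]
  have hinv' : ∀ (a : G) (y : V), Φ a (Φ a⁻¹ y) = y := fun a y => by
    rw [← hmul, mul_inv_cancel, hone]
  have hc : ∀ (a : G) (y : V), Φ a (Φ n y) = Φ n (Φ a y) := fun a y => by
    rw [← hmul, ← hmul, hcen]
  have hinj : ∀ (a : G) (y z : V), Φ a y = Φ a z → y = z := fun a y z h => (Φ a).injective h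
  have hmov : ∀ (a : G) (y : V), Φ n y ≠ y → Φ n (Φ a y) ≠ Φ a y := fun a y h h' => by
    rw [← hc] at h'
    exact h (hinj _ _ _ h')
  have hmov' : ∀ (a : G) (y : V), Φ n (Φ a y) ≠ Φ a y → Φ n y ≠ y := fun a y h h' => by
    rw [← hc, h'] at h
    exact h rfl
  have hadj : ∀ (a : G) (y z : V), X.Adj y z → X.Adj (Φ a y) (Φ a z) := fun a y z h =>
    (Φ a).map_adj_iff.2 h
  -- the set W
  set W : Set V := {y | ∃ k : ℕ, Relation.ReflTransGen R x (Φ (n ^ k) y)} with hWdef
  have hend : ∀ y, Relation.ReflTransGen R x y → Φ n y ≠ y := by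
    intro y hy
    induction hy with
    | refl => exact hx
    | tail _ h _ => exact h.2
  have hWmov : ∀ y ∈ W, Φ n y ≠ y := by
    rintro y ⟨k, hk⟩
    exact hmov' (n ^ k) y (hend _ hk)
  have hxW : x ∈ W := ⟨0, by rw [pow_zero, hone]⟩
  have hWn : ∀ y, Φ n y ∈ W ↔ y ∈ W := by
    intro y
    constructor
    · rintro ⟨k, hk⟩
      refine ⟨k + 1, ?_⟩
      rw [pow_succ, hmul]
      exact hk
    · rintro ⟨k, hk⟩
      refine ⟨k + 2, ?_⟩
      have h3 : n ^ (k + 2) * n = n ^ k := by
        rw [← pow_succ, show k + 2 + 1 = k + 3 from rfl, pow_add, hn3, mul_one]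
      rw [← hmul, h3]
      exact hk
  have hWadj : ∀ y z, y ∈ W → X.Adj y z → Φ n z ≠ z → z ∈ W := by
    rintro y z ⟨k, hk⟩ hyz hz
    exact ⟨k, hk.tail ⟨hadj _ _ _ hyz, hmov _ _ hz⟩⟩
  by_contra hcon
  have hgx : Φ g x ∉ W := by
    rintro ⟨k, hk⟩
    exact hcon ⟨k, by rw [hmul]; exact hk⟩
  -- g W is disjoint from W
  have hdis : ∀ y ∈ W, Φ g y ∉ W := by
    rintro y ⟨k, hk⟩ hgy
    have h1 : Φ g (Φ (n ^ k) y) ∈ W := by
      have h2 : ∀ j : ℕ, Φ g (Φ (n ^ j) y) ∈ W := by
        intro j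
        induction j with
        | zero => rw [pow_zero, hone]; exact hgy
        | succ j ih =>
          rw [pow_succ', hmul, hc, hWn]
          exact ih
      exact h2 k
    have h3 : ∀ b, Relation.ReflTransGen R x b → Φ g b ∈ W → Φ g x ∈ W := by
      intro b hb
      induction hb with
      | refl => exact id
      | tail hb' hs ih =>
        intro hgc
        apply ih
        exact hWadj _ _ hgc (hadj g _ _ hs.1.symm) (hmov g _ (hend _ hb'))
    exact hgx (h3 _ hk h1)
  -- the automorphism n_W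
  obtain ⟨b, hb1, hb2⟩ := cutAut (Φ n) W hWn (fun y z hy hz hyz => by
    by_contra h
    exact hz (hWadj y z hy hyz h))
  obtain ⟨m, rfl⟩ := Φ.surjective b
  obtain ⟨k, hk⟩ := hcom g m
  have e1 : Φ (n ^ k) (Φ g x) = Φ n (Φ g x) := by
    rw [← hk, hmul, hmul, hmul]
    have : Φ m⁻¹ (Φ g x) = Φ g x := by
      apply hinj m
      rw [hinv', hb2 _ hgx]
    rw [this, hinv, hb1 x hxW, hc]
  have e2 : Φ (n ^ k) (Φ n x) = x := by
    rw [← hk, hmul, hmul, hmul]
    have h1 : Φ m⁻¹ (Φ n x) = x := by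
      apply hinj m
      rw [hinv', hb1 x hxW]
    have h2 : Φ g⁻¹ x ∉ W := by
      intro h
      apply hdis _ h
      rw [hinv']
      exact hxW
    rw [h1, hb2 _ h2, hinv']
  have e3 : Φ (n ^ k) x = Φ n x := by
    apply hinj g
    rw [hc, ← e1, ← hmul, ← hmul]
    congr 2
    have : ∀ j : ℕ, g * n ^ j = n ^ j * g := by
      intro j
      induction j with
      | zero => simp
      | succ j ih => rw [pow_succ, ← mul_assoc, ih, mul_assoc, hcen, ← mul_assoc]
    exact this k
  rw [hc, e3] at e2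
  apply hx
  have e4 : Φ n (Φ n (Φ n x)) = x := by
    rw [← hmul, ← hmul, show n * n * n = 1 by rw [← hn3, pow_three, mul_assoc], hone]
  rw [e2] at e4
  exact e4

end Pool.Agent.Run7.h733.EO
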